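import Pool.Agent.H211TR.Final

set_option autoImplicit false

namespace Pool.Agent.H211TR

open Finset Classical

/-- No two points on a common horizontal, vertical or slope one line. -/
def GP (P : Finset (ℝ × ℝ)) : Prop :=
  ∀ p ∈ P, ∀ q ∈ P, p ≠ q → p.1 ≠ q.1 ∧ p.2 ≠ q.2 ∧ p.2 - p.1 ≠ q.2 - q.1

theorem Good.gp {S : Finset (ℤ × ℤ)} {h : ℤ} (H : Good S h) : GP (S.image emb) := by
  intro u hu v hv huv
  obtain ⟨p, hp, rfl⟩ := Finset.mem_image.1 hu
  obtain ⟨q, hq, rfl⟩ := Finset.mem_image.1 hv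
  have hpq : p ≠ q := fun e => huv (by rw [e])
  refine ⟨?_, ?_, ?_⟩
  · intro e
    exact hpq (H.xi p hp q hq (by simpa [emb] using e))
  · intro e
    exact hpq (H.yi p hp q hq (by simpa [emb] using e))
  · intro e
    refine hpq (H.zi p hp q hq ?_)
    simp only [emb] at e
    exact_mod_cast e

theorem erase_le {P : Finset (ℝ × ℝ)} (hP : GP P) {r : ℝ × ℝ} (hr : r ∈ P) :
    N (P.erase r) ≤ N P + (P.card : ℕ∞) := by
  unfold N
  set jn : ℝ × ℝ → Set (ℝ × ℝ) := fun p =>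
    if h : ∃ d, r ∈ tropLine d ∧ p ∈ tropLine d then tropLine h.choose else ∅ with hjn
  have sub : ordinary (P.erase r) ⊆ ordinary P ∪ jn '' (P : Set (ℝ × ℝ)) := by
    rintro l ⟨⟨c, rfl⟩, hl⟩
    by_cases hrc : r ∈ tropLine c
    · right
      obtain ⟨u, v, huv, he⟩ := Set.ncard_eq_two.1 hl
      have hu : u ∈ tropLine c ∩ ((P.erase r : Finset (ℝ × ℝ)) : Set (ℝ × ℝ)) := by
        rw [he]; exact Set.mem_insert _ _
      have hu2 := Finset.mem_erase.1 (Finset.mem_coe.1 hu.2)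
      refine ⟨u, hu2.2, ?_⟩
      have hex : ∃ d, r ∈ tropLine d ∧ u ∈ tropLine d := ⟨c, hrc, hu.1⟩
      obtain ⟨hx, hy, hz⟩ := hP r hr u hu2.2 hu2.1.symm
      simp only [hjn]
      rw [dif_pos hex, center_unique hx hy hz hrc hu.1 hex.choose_spec.1 hex.choose_spec.2]
    · left
      refine ⟨⟨c, rfl⟩, ?_⟩
      have : tropLine c ∩ (P : Set (ℝ × ℝ)) =
          tropLine c ∩ ((P.erase r : Finset (ℝ × ℝ)) : Set (ℝ × ℝ)) := by
        ext x
        simp only [Set.mem_inter_iff, Finset.mem_coe, Finset.mem_erase]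
        constructor
        · rintro ⟨h1, h2⟩
          exact ⟨h1, fun e => hrc (e ▸ h1), h2⟩
        · rintro ⟨h1, -, h2⟩
          exact ⟨h1, h2⟩
      rw [this]
      exact hl
  calc (ordinary (P.erase r)).encard ≤ (ordinary P ∪ jn '' (P : Set (ℝ × ℝ))).encard :=
        Set.encard_le_encard sub
    _ ≤ (ordinary P).encard + (jn '' (P : Set (ℝ × ℝ))).encard := Set.encard_union_le _ _
    _ ≤ (ordinary P).encard + (P.card : ℕ∞) := by
        gcongr
        exact (Set.encard_image_le _ _).trans (Set.encard_coe_eq_coe_finsetCard _).le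

theorem drop_le (j : ℕ) : ∀ P : Finset (ℝ × ℝ), GP P → j ≤ P.card →
    ∃ Q : Finset (ℝ × ℝ), Q.card = P.card - j ∧ N Q ≤ N P + ((j * P.card : ℕ) : ℕ∞) := by
  induction j with
  | zero => intro P _ _; exact ⟨P, by simp, by simp⟩
  | succ j ih =>
    intro P hP hj
    obtain ⟨r, hr⟩ := Finset.card_pos.1 (by omega : 0 < P.card)
    have h1 : (P.erase r).card = P.card - 1 := Finset.card_erase_of_mem hr
    have hP' : GP (P.erase r) := fun p hp q hq =>
      hP p (Finset.mem_of_mem_erase hp) q (Finset.mem_of_mem_erase hq)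
    obtain ⟨Q, hQ, hN⟩ := ih (P.erase r) hP' (by omega)
    refine ⟨Q, by omega, hN.trans ?_⟩
    calc N (P.erase r) + ((j * (P.erase r).card : ℕ) : ℕ∞)
        ≤ (N P + (P.card : ℕ∞)) + ((j * P.card : ℕ) : ℕ∞) := by
          refine add_le_add (erase_le hP hr) ?_
          rw [Nat.cast_le, h1]
          exact Nat.mul_le_mul_left _ (Nat.sub_le _ _)
      _ = N P + (((j + 1) * P.card : ℕ) : ℕ∞) := by
          rw [add_assoc]
          congr 1
          rw [← Nat.cast_add]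
          congr 1
          ring

/-- A good set of every odd size. -/
theorem good_base (h : ℤ) (h0 : 0 ≤ h) : ∃ S : Finset (ℤ × ℤ), Good S h := by
  refine ⟨(Finset.Icc 0 (2 * h)).image fun x => (x, x / 2 + if x % 2 = 0 then h else 0), ?_⟩
  have mem : ∀ p : ℤ × ℤ, p ∈ (Finset.Icc 0 (2 * h)).image
      (fun x => (x, x / 2 + if x % 2 = 0 then h else 0)) ↔
      0 ≤ p.1 ∧ p.1 ≤ 2 * h ∧ p.2 = p.1 / 2 + if p.1 % 2 = 0 then h else 0 := by
    intro p
    rw [Finset.mem_image]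
    constructor
    · rintro ⟨x, hx, rfl⟩
      rw [Finset.mem_Icc] at hx
      exact ⟨hx.1, hx.2, rfl⟩
    · rintro ⟨h1, h2, h3⟩
      exact ⟨p.1, Finset.mem_Icc.2 ⟨h1, h2⟩, Prod.ext rfl h3.symm⟩
  refine ⟨h0, ?_, ?_, ?_, ?_, ?_, ?_, ?_, ?_, ?_, ?_, ?_, ?_⟩
  iterate 6
    · intro p hp
      obtain ⟨h1, h2, h3⟩ := (mem p).1 hp
      split_ifs at h3 <;> omega
  · intro p hp q hq e
    obtain ⟨h1, h2, h3⟩ := (mem p).1 hp
    obtain ⟨h1', h2', h3'⟩ := (mem q).1 hq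
    refine Prod.ext e ?_
    rw [h3, h3', e]
  · intro p hp q hq e
    obtain ⟨h1, h2, h3⟩ := (mem p).1 hp
    obtain ⟨h1', h2', h3'⟩ := (mem q).1 hq
    refine Prod.ext ?_ e
    split_ifs at h3 h3' <;> omega
  · intro p hp q hq e
    obtain ⟨h1, h2, h3⟩ := (mem p).1 hp
    obtain ⟨h1', h2', h3'⟩ := (mem q).1 hq
    have : p.1 = q.1 := by split_ifs at h3 h3' <;> omega
    exact Prod.ext this (by omega)
  · intro i h1 h2
    exact ⟨(i, i / 2 + if i % 2 = 0 then h else 0), (mem _).2 ⟨h1, h2, rfl⟩, rfl⟩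
  · intro i h1 h2
    by_cases c : h ≤ i
    · refine ⟨(2 * (i - h), i), (mem _).2 ⟨by dsimp only; omega, by dsimp only; omega, ?_⟩, rfl⟩
      dsimp only
      split_ifs <;> omega
    · refine ⟨(2 * i + 1, i), (mem _).2 ⟨by dsimp only; omega, by dsimp only; omega, ?_⟩, rfl⟩
      dsimp only
      split_ifs <;> omega
  · intro i h1 h2
    by_cases c : 0 ≤ i
    · refine ⟨(2 * (h - i), 2 * (h - i) + i), (mem _).2 ⟨by dsimp only; omega,
        by dsimp only; omega, ?_⟩, by dsimp only; omega⟩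
      dsimp only
      split_ifs <;> omega
    · refine ⟨(-2 * i - 1, -2 * i - 1 + i), (mem _).2 ⟨by dsimp only; omega,
        by dsimp only; omega, ?_⟩, by dsimp only; omega⟩
      dsimp only
      split_ifs <;> omega

theorem exists_good2 (h : ℤ) (h0 : 1 ≤ h) : ∀ k : ℕ, ∃ (S : Finset (ℤ × ℤ)) (g : ℤ), Good S g ∧
    2 * g + 1 = 3 ^ k * (2 * h + 1) ∧
    8 * ((bad S).card : ℤ) ≤ (2 * g) * (2 * g - 2) + 3 ^ k * (8 * (2 * h + 1) ^ 2) := by
  intro k
  induction k with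
  | zero =>
    obtain ⟨S, H⟩ := good_base h (by omega)
    refine ⟨S, h, H, by ring, ?_⟩
    have h1 : (bad S).card ≤ S.card * S.card := by
      unfold bad
      exact (Finset.card_filter_le _ _).trans (by rw [Finset.card_product])
    have h2 : ((bad S).card : ℤ) ≤ (S.card : ℤ) * (S.card : ℤ) := by exact_mod_cast h1
    rw [H.card] at h2
    nlinarith
  | succ k ih =>
    obtain ⟨S, g, H, e, hb⟩ := ih
    refine ⟨next S g, 3 * g + 1, H.next, ?_, ?_⟩
    · rw [pow_succ]; linarith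
    · have := bad_next H
      rw [pow_succ]
      nlinarith

/-- The bound in terms of `q = 3 ^ k`. -/
theorem m_le2 (n k : ℕ) (hn : 1 ≤ n) (h1 : (3 ^ k) ^ 2 ≤ n) (h2 : n < 9 * (3 ^ k) ^ 2) :
    ∃ M : ℕ, m n = M ∧ 8 * M ≤ n ^ 2 + 500 * (3 ^ k) * n := by
  set q := 3 ^ k with hq
  have hq1 : 1 ≤ q := Nat.one_le_pow _ _ (by norm_num)
  set t := n / (2 * q) with ht
  have ht1 : 2 * q * t ≤ n := Nat.mul_div_le _ _
  have ht2 : n < 2 * q * (t + 1) := Nat.lt_mul_div_succ n (by omega)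
  obtain ⟨S, g, H, e, hb⟩ := exists_good2 ((t : ℤ) + 1) (by linarith [Int.natCast_nonneg t]) k
  have hcard : (S.image emb).card = q * (2 * t + 3) := by
    rw [Finset.card_image_of_injective _ emb_inj]
    have := H.card
    rw [e] at this
    zify
    rw [this]
    push_cast [hq]
    ring
  have hle : n ≤ q * (2 * t + 3) := by nlinarith
  obtain ⟨Q, hQ, hN⟩ := drop_le (q * (2 * t + 3) - n) (S.image emb) H.gp (by rw [hcard]; omega)
  have hQn : Q.card = n := by rw [hQ, hcard]; omega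
  have hb2 : N (S.image emb) ≤ ((bad S).card : ℕ∞) := N_le H
  have hm : m n ≤ (((bad S).card + (q * (2 * t + 3) - n) * (q * (2 * t + 3)) : ℕ) : ℕ∞) := by
    refine (iInf₂_le Q hQn).trans (hN.trans ?_)
    rw [hcard, Nat.cast_add]
    gcongr
  have hne : m n ≠ ⊤ := ne_top_of_le_ne_top (ENat.coe_ne_top _) hm
  obtain ⟨M, hM⟩ := ENat.ne_top_iff_exists.1 hne
  refine ⟨M, hM.symm, ?_⟩
  rw [← hM, Nat.cast_le] at hm
  zify [hle] at hm ⊢
  have e' : 2 * g + 1 = (q : ℤ) * (2 * t + 3) := by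
    rw [e, hq]; push_cast; ring
  have hb' : 8 * ((bad S).card : ℤ) ≤ (2 * g) * (2 * g - 2) + (q : ℤ) * (8 * (2 * t + 3) ^ 2) := by
    have : (2 * ((t : ℤ) + 1) + 1) = 2 * t + 3 := by ring
    rw [this] at hb
    rw [hq]
    push_cast
    exact hb
  have hg : 2 * g = (q : ℤ) * (2 * t + 3) - 1 := by linarith
  rw [hg] at hb'
  have z1 : 2 * (q : ℤ) * t ≤ n := by exact_mod_cast ht1
  have z2 : (q : ℤ) ^ 2 ≤ n := by exact_mod_cast h1
  have z3 : (n : ℤ) < 9 * (q : ℤ) ^ 2 := by exact_mod_cast h2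
  have z4 : (1 : ℤ) ≤ q := by exact_mod_cast hq1
  have z5 : (0 : ℤ) ≤ t := by positivity
  have z6 : (1 : ℤ) ≤ n := by exact_mod_cast hn
  -- 2 t ≤ 9 q
  have z7 : 2 * (t : ℤ) ≤ 9 * q := by
    by_contra hc
    push Not at hc
    nlinarith
  set u : ℤ := (q : ℤ) * (2 * t + 3) with hu
  have u1 : u ≤ n + 3 * q := by rw [hu]; nlinarith
  have u0 : (n : ℤ) ≤ u := by rw [hu]; exact_mod_cast hle
  have u2 : (q : ℤ) * (8 * (2 * t + 3) ^ 2) = 8 * u * (2 * t + 3) := by rw [hu]; ring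
  have upos : 0 ≤ u := by linarith
  have tpos : (0 : ℤ) ≤ 2 * t + 3 := by linarith
  have u3 : 8 * u * (2 * t + 3) ≤ 8 * (n + 3 * q) * (9 * q + 3) := by
    have : u * (2 * t + 3) ≤ (n + 3 * q) * (9 * q + 3) :=
      mul_le_mul u1 (by linarith) tpos (by linarith)
    linarith
  have u4 : (u - n) * u ≤ 3 * q * (n + 3 * q) :=
    mul_le_mul (by linarith) u1 upos (by linarith)
  have u5 : u * u ≤ (n + 3 * q) * (n + 3 * q) := mul_le_mul u1 u1 upos (by linarith)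
  have w2 : (n : ℤ) ≤ q * n := le_mul_of_one_le_left (by linarith) z4
  have w1 : (q : ℤ) ^ 2 ≤ q * n := z2.trans w2
  have w3 : (q : ℤ) ≤ q * n := le_mul_of_one_le_right (by linarith) z6
  have hu' : ((q : ℤ) * (2 * (t : ℤ) + 3)) = u := rfl
  have hm' : (M : ℤ) ≤ ((bad S).card : ℤ) + (u - n) * u := by
    simpa [hu] using hm
  rw [u2] at hb'
  have fin1 : 8 * (M : ℤ) ≤ (u - 1) * (u - 1 - 2) + 8 * u * (2 * t + 3) + 8 * ((u - n) * u) := by
    linarith
  have fin2 : (u - 1) * (u - 1 - 2) ≤ u * u + 3 := by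
    have : (u - 1) * (u - 1 - 2) = u * u - 4 * u + 3 := by ring
    linarith
  have w4 : (1 : ℤ) ≤ q * n := by linarith
  have E : ((n : ℤ) + 3 * q) * (n + 3 * q) + 3 + 8 * (n + 3 * q) * (9 * q + 3)
      + 8 * (3 * q * (n + 3 * q)) =
      (n : ℤ) ^ 2 + 102 * (q * n) + 24 * n + 297 * (q : ℤ) ^ 2 + 72 * q + 3 := by ring
  linarith

theorem m_asymp (n : ℕ) (hn : 1 ≤ n) :
    ∃ M : ℕ, m n = M ∧ (8 * M : ℝ) ≤ (n : ℝ) ^ 2 + 500 * n * Real.sqrt n := by
  have h1 : 9 ^ (Nat.log 9 n) ≤ n := Nat.pow_log_le_self 9 (by omega)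
  have h2 : n < 9 ^ (Nat.log 9 n + 1) := Nat.lt_pow_succ_log_self (by norm_num) n
  have e : ∀ k : ℕ, (9 : ℕ) ^ k = (3 ^ k) ^ 2 := fun k => by
    rw [← pow_mul, mul_comm, pow_mul]; norm_num
  obtain ⟨M, hM, hb⟩ := m_le2 n (Nat.log 9 n) hn (by rw [← e]; exact h1)
    (by rw [← e]; calc n < 9 ^ (Nat.log 9 n + 1) := h2
          _ = 9 * 9 ^ (Nat.log 9 n) := by rw [pow_succ]; ring)
  refine ⟨M, hM, ?_⟩
  have hs : ((3 ^ Nat.log 9 n : ℕ) : ℝ) ≤ Real.sqrt n := by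
    apply Real.le_sqrt_of_sq_le
    have : (3 ^ Nat.log 9 n) ^ 2 ≤ n := by rw [← e]; exact h1
    exact_mod_cast this
  have hb' : (8 * (M : ℝ)) ≤ (n : ℝ) ^ 2 + 500 * ((3 ^ Nat.log 9 n : ℕ) : ℝ) * n := by
    exact_mod_cast hb
  have hn0 : (0 : ℝ) ≤ n := Nat.cast_nonneg n
  nlinarith [mul_le_mul_of_nonneg_right hs hn0]

end Pool.Agent.H211TR
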