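import Pool.Agent.H211TR.Defs

set_option autoImplicit false

namespace Pool.Agent.H211TR

open Finset Classical

/-- A finite set of lattice points whose `x`- and `y`-coordinates fill `[0, 2h]` and whose
differences `y - x` fill `[-h, h]`, each value once. -/
structure Good (S : Finset (ℤ × ℤ)) (h : ℤ) : Prop where
  h0 : 0 ≤ h
  x0 : ∀ p ∈ S, 0 ≤ p.1
  x1 : ∀ p ∈ S, p.1 ≤ 2 * h
  y0 : ∀ p ∈ S, 0 ≤ p.2
  y1 : ∀ p ∈ S, p.2 ≤ 2 * h
  z0 : ∀ p ∈ S, -h ≤ p.2 - p.1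
  z1 : ∀ p ∈ S, p.2 - p.1 ≤ h
  xi : ∀ p ∈ S, ∀ q ∈ S, p.1 = q.1 → p = q
  yi : ∀ p ∈ S, ∀ q ∈ S, p.2 = q.2 → p = q
  zi : ∀ p ∈ S, ∀ q ∈ S, p.2 - p.1 = q.2 - q.1 → p = q
  xs : ∀ i, 0 ≤ i → i ≤ 2 * h → ∃ p ∈ S, p.1 = i
  ys : ∀ i, 0 ≤ i → i ≤ 2 * h → ∃ p ∈ S, p.2 = i
  zs : ∀ i, -h ≤ i → i ≤ h → ∃ p ∈ S, p.2 - p.1 = i

/-- The three shifted copies. -/
def next (S : Finset (ℤ × ℤ)) (h : ℤ) : Finset (ℤ × ℤ) :=
  S.image (fun p => (p.1, p.2 + (2 * h + 1))) ∪ S.image (fun p => (p.1 + (2 * h + 1), p.2)) ∪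
    S.image (fun p => (p.1 + 2 * (2 * h + 1), p.2 + 2 * (2 * h + 1)))

theorem mem_next {S : Finset (ℤ × ℤ)} {h : ℤ} {p : ℤ × ℤ} : p ∈ next S h ↔
    (∃ q ∈ S, p = (q.1, q.2 + (2 * h + 1))) ∨ (∃ q ∈ S, p = (q.1 + (2 * h + 1), q.2)) ∨
      (∃ q ∈ S, p = (q.1 + 2 * (2 * h + 1), q.2 + 2 * (2 * h + 1))) := by
  unfold next
  simp only [Finset.mem_union, Finset.mem_image, or_assoc]
  constructor
  · rintro (⟨q, hq, rfl⟩ | ⟨q, hq, rfl⟩ | ⟨q, hq, rfl⟩)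
    · exact Or.inl ⟨q, hq, rfl⟩
    · exact Or.inr (Or.inl ⟨q, hq, rfl⟩)
    · exact Or.inr (Or.inr ⟨q, hq, rfl⟩)
  · rintro (⟨q, hq, rfl⟩ | ⟨q, hq, rfl⟩ | ⟨q, hq, rfl⟩)
    · exact Or.inl ⟨q, hq, rfl⟩
    · exact Or.inr (Or.inl ⟨q, hq, rfl⟩)
    · exact Or.inr (Or.inr ⟨q, hq, rfl⟩)

theorem Good.next {S : Finset (ℤ × ℤ)} {h : ℤ} (H : Good S h) :
    Good (next S h) (3 * h + 1) := by
  have h0 := H.h0
  refine ⟨by omega, ?_, ?_, ?_, ?_, ?_, ?_, ?_, ?_, ?_, ?_, ?_, ?_⟩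
  iterate 6
    · intro p hp
      rcases mem_next.1 hp with ⟨q, hq, rfl⟩ | ⟨q, hq, rfl⟩ | ⟨q, hq, rfl⟩ <;>
      · have := H.x0 q hq; have := H.x1 q hq; have := H.y0 q hq; have := H.y1 q hq
        have := H.z0 q hq; have := H.z1 q hq
        dsimp only
        omega
  · intro p hp q hq e
    rcases mem_next.1 hp with ⟨a, ha, rfl⟩ | ⟨a, ha, rfl⟩ | ⟨a, ha, rfl⟩ <;>
    rcases mem_next.1 hq with ⟨b, hb, rfl⟩ | ⟨b, hb, rfl⟩ | ⟨b, hb, rfl⟩ <;>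
    · have := H.x0 a ha; have := H.x1 a ha; have := H.x0 b hb; have := H.x1 b hb
      dsimp only at e
      first
      | (exfalso; omega)
      | (have hab : a = b := H.xi a ha b hb (by omega)
         rw [hab])
  · intro p hp q hq e
    rcases mem_next.1 hp with ⟨a, ha, rfl⟩ | ⟨a, ha, rfl⟩ | ⟨a, ha, rfl⟩ <;>
    rcases mem_next.1 hq with ⟨b, hb, rfl⟩ | ⟨b, hb, rfl⟩ | ⟨b, hb, rfl⟩ <;>
    · have := H.y0 a ha; have := H.y1 a ha; have := H.y0 b hb; have := H.y1 b hb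
      dsimp only at e
      first
      | (exfalso; omega)
      | (have hab : a = b := H.yi a ha b hb (by omega)
         rw [hab])
  · intro p hp q hq e
    rcases mem_next.1 hp with ⟨a, ha, rfl⟩ | ⟨a, ha, rfl⟩ | ⟨a, ha, rfl⟩ <;>
    rcases mem_next.1 hq with ⟨b, hb, rfl⟩ | ⟨b, hb, rfl⟩ | ⟨b, hb, rfl⟩ <;>
    · have := H.z0 a ha; have := H.z1 a ha; have := H.z0 b hb; have := H.z1 b hb
      dsimp only at e
      first
      | (exfalso; omega)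
      | (have hab : a = b := H.zi a ha b hb (by omega)
         rw [hab])
  · intro i hi hi2
    by_cases c1 : i ≤ 2 * h
    · obtain ⟨p, hp, e⟩ := H.xs i hi c1
      exact ⟨_, mem_next.2 (Or.inl ⟨p, hp, rfl⟩), e⟩
    · by_cases c2 : i ≤ 4 * h + 1
      · obtain ⟨p, hp, e⟩ := H.xs (i - (2 * h + 1)) (by omega) (by omega)
        exact ⟨_, mem_next.2 (Or.inr (Or.inl ⟨p, hp, rfl⟩)), by dsimp only; omega⟩
      · obtain ⟨p, hp, e⟩ := H.xs (i - 2 * (2 * h + 1)) (by omega) (by omega)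
        exact ⟨_, mem_next.2 (Or.inr (Or.inr ⟨p, hp, rfl⟩)), by dsimp only; omega⟩
  · intro i hi hi2
    by_cases c1 : i ≤ 2 * h
    · obtain ⟨p, hp, e⟩ := H.ys i hi c1
      exact ⟨_, mem_next.2 (Or.inr (Or.inl ⟨p, hp, rfl⟩)), e⟩
    · by_cases c2 : i ≤ 4 * h + 1
      · obtain ⟨p, hp, e⟩ := H.ys (i - (2 * h + 1)) (by omega) (by omega)
        exact ⟨_, mem_next.2 (Or.inl ⟨p, hp, rfl⟩), by dsimp only; omega⟩
      · obtain ⟨p, hp, e⟩ := H.ys (i - 2 * (2 * h + 1)) (by omega) (by omega)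
        exact ⟨_, mem_next.2 (Or.inr (Or.inr ⟨p, hp, rfl⟩)), by dsimp only; omega⟩
  · intro i hi hi2
    by_cases c1 : i ≤ h
    · by_cases c2 : -h ≤ i
      · obtain ⟨p, hp, e⟩ := H.zs i c2 c1
        exact ⟨_, mem_next.2 (Or.inr (Or.inr ⟨p, hp, rfl⟩)), by dsimp only; omega⟩
      · obtain ⟨p, hp, e⟩ := H.zs (i + (2 * h + 1)) (by omega) (by omega)
        exact ⟨_, mem_next.2 (Or.inr (Or.inl ⟨p, hp, rfl⟩)), by dsimp only; omega⟩
    · obtain ⟨p, hp, e⟩ := H.zs (i - (2 * h + 1)) (by omega) (by omega)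
      exact ⟨_, mem_next.2 (Or.inl ⟨p, hp, rfl⟩), by dsimp only; omega⟩

theorem Good.card {S : Finset (ℤ × ℤ)} {h : ℤ} (H : Good S h) : (S.card : ℤ) = 2 * h + 1 := by
  have h1 : S.image Prod.fst = Finset.Icc 0 (2 * h) := by
    ext i
    simp only [Finset.mem_image, Finset.mem_Icc]
    constructor
    · rintro ⟨p, hp, rfl⟩
      exact ⟨H.x0 p hp, H.x1 p hp⟩
    · rintro ⟨ha, hb⟩
      exact H.xs i ha hb
  have h2 : (S.image Prod.fst).card = S.card :=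
    Finset.card_image_of_injOn (fun p hp q hq e => H.xi p hp q hq e)
  rw [← h2, h1, Int.card_Icc]
  have := H.h0
  omega

/-- Incidence over the integers. -/
def On (a b : ℤ) (p : ℤ × ℤ) : Prop :=
  (p.1 ≤ a ∧ p.2 = b) ∨ (p.1 = a ∧ p.2 ≤ b) ∨ (a ≤ p.1 ∧ p.2 - b = p.1 - a)

/-- Pairs of points of `S` which lie on no tropical line with a third point of `S`. -/
noncomputable def bad (S : Finset (ℤ × ℤ)) : Finset ((ℤ × ℤ) × (ℤ × ℤ)) :=
  (S ×ˢ S).filter fun c => c.1.1 < c.2.1 ∧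
    ¬ ∃ r ∈ S, r ≠ c.1 ∧ r ≠ c.2 ∧ ∃ a b : ℤ, On a b c.1 ∧ On a b c.2 ∧ On a b r

theorem count {ι : Type*} [DecidableEq ι] (C : Finset ι) (h : ℤ) (h0 : 0 ≤ h) (f g : ι → ℤ)
    (f0 : ∀ c ∈ C, 0 ≤ f c ∧ f c ≤ 2 * h) (g0 : ∀ c ∈ C, 0 ≤ g c ∧ g c ≤ 2 * h)
    (hfg : ∀ c ∈ C, f c - g c > h ∨ g c - f c > h)
    (inj : ∀ c ∈ C, ∀ d ∈ C, f c = f d → g c = g d → c = d) :
    (C.card : ℤ) ≤ h * (h + 1) := by
  have key : C.card ≤ (Finset.Icc (0 : ℤ) (h - 1) ×ˢ Finset.Icc (0 : ℤ) h).card := by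
    refine Finset.card_le_card_of_injOn
      (fun c => if f c - g c > h then (f c - h - 1, g c) else (f c, g c - h)) ?_ ?_
    · intro c hc
      have hc' := Finset.mem_coe.1 hc
      have a1 := f0 c hc'; have a2 := g0 c hc'; have a3 := hfg c hc'
      simp only [Finset.coe_product, Finset.coe_Icc, Set.mem_prod, Set.mem_Icc]
      split_ifs with hh
      · dsimp only; omega
      · dsimp only; omega
    · intro c hc d hd e
      have hc' := Finset.mem_coe.1 hc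
      have hd' := Finset.mem_coe.1 hd
      have a1 := f0 c hc'; have a2 := g0 c hc'; have a3 := hfg c hc'
      have b1 := f0 d hd'; have b2 := g0 d hd'; have b3 := hfg d hd'
      dsimp only at e
      split_ifs at e with hh hh2 hh2 <;> rw [Prod.mk.injEq] at e <;>
      first
      | (exfalso; omega)
      | exact inj c hc' d hd' (by omega) (by omega)
  rw [Finset.card_product, Int.card_Icc, Int.card_Icc] at key
  have : ((C.card : ℕ) : ℤ) ≤ (((h - 1 + 1 - 0).toNat * (h + 1 - 0).toNat : ℕ) : ℤ) := by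
    exact_mod_cast key
  rw [Nat.cast_mul, Int.toNat_of_nonneg (by omega), Int.toNat_of_nonneg (by omega)] at this
  calc (C.card : ℤ) ≤ (h - 1 + 1 - 0) * (h + 1 - 0) := this
    _ = h * (h + 1) := by ring

end Pool.Agent.H211TR
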