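import Mathlib

set_option autoImplicit false

namespace Pool.Agent.H211TR

/-- The tropical line (max convention) with center `c`: the union of the three closed rays from `c`
in the directions `(-1, 0)`, `(0, -1)`, `(1, 1)`. -/
def tropLine (c : ℝ × ℝ) : Set (ℝ × ℝ) :=
  {q | (q.1 ≤ c.1 ∧ q.2 = c.2) ∨ (q.1 = c.1 ∧ q.2 ≤ c.2) ∨ (c.1 ≤ q.1 ∧ q.2 - c.2 = q.1 - c.1)}

/-- The ordinary tropical lines determined by `P`: the tropical lines with exactly two points
of `P`. -/
def ordinary (P : Finset (ℝ × ℝ)) : Set (Set (ℝ × ℝ)) :=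
  {l | (∃ c, l = tropLine c) ∧ (l ∩ (P : Set (ℝ × ℝ))).ncard = 2}

/-- `N(P)`, the number of ordinary tropical lines determined by `P`, possibly infinite. -/
noncomputable def N (P : Finset (ℝ × ℝ)) : ℕ∞ := (ordinary P).encard

/-- `m(n)`, the minimum of `N(P)` over the sets `P` of `n` points. -/
noncomputable def m (n : ℕ) : ℕ∞ := ⨅ (P : Finset (ℝ × ℝ)) (_ : P.card = n), N P

end Pool.Agent.H211TR
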