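import Pool.Agent.H211TR.Step

set_option autoImplicit false

namespace Pool.Agent.H211TR

open Finset Classical

/-- Two points in general position lie on at most one tropical line. -/
theorem center_unique {p q c d : ℝ × ℝ} (hx : p.1 ≠ q.1) (hy : p.2 ≠ q.2)
    (hz : p.2 - p.1 ≠ q.2 - q.1) (h1 : p ∈ tropLine c) (h2 : q ∈ tropLine c)
    (h3 : p ∈ tropLine d) (h4 : q ∈ tropLine d) : c = d := by
  simp only [tropLine, Set.mem_setOf_eq] at h1 h2 h3 h4
  rcases h1 with ⟨a1, b1⟩ | ⟨a1, b1⟩ | ⟨a1, b1⟩ <;>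
  rcases h2 with ⟨a2, b2⟩ | ⟨a2, b2⟩ | ⟨a2, b2⟩ <;>
  first
  | exact absurd (by linarith) hx
  | exact absurd (by linarith) hy
  | exact absurd (by linarith) hz
  | (rcases h3 with ⟨a3, b3⟩ | ⟨a3, b3⟩ | ⟨a3, b3⟩ <;>
     rcases h4 with ⟨a4, b4⟩ | ⟨a4, b4⟩ | ⟨a4, b4⟩ <;>
     first
     | exact absurd (by linarith) hx
     | exact absurd (by linarith) hy
     | exact absurd (by linarith) hz
     | exact Prod.ext (by linarith) (by linarith))

/-- The embedding of the integer points. -/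
def emb (p : ℤ × ℤ) : ℝ × ℝ := ((p.1 : ℝ), (p.2 : ℝ))

theorem emb_inj : Function.Injective emb := by
  intro p q h
  simp only [emb, Prod.mk.injEq] at h
  exact Prod.ext (by exact_mod_cast h.1) (by exact_mod_cast h.2)

theorem emb_mem {a b : ℤ} {p : ℤ × ℤ} (h : On a b p) : emb p ∈ tropLine ((a : ℝ), (b : ℝ)) := by
  simp only [tropLine, Set.mem_setOf_eq, emb]
  rcases h with ⟨h1, h2⟩ | ⟨h1, h2⟩ | ⟨h1, h2⟩
  · exact Or.inl ⟨by exact_mod_cast h1, by exact_mod_cast h2⟩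
  · exact Or.inr (Or.inl ⟨by exact_mod_cast h1, by exact_mod_cast h2⟩)
  · exact Or.inr (Or.inr ⟨by exact_mod_cast h1, by exact_mod_cast h2⟩)

/-- A tropical line through two points, if there is one. -/
noncomputable def join (c : (ℤ × ℤ) × (ℤ × ℤ)) : Set (ℝ × ℝ) :=
  if h : ∃ d, emb c.1 ∈ tropLine d ∧ emb c.2 ∈ tropLine d then tropLine h.choose else ∅

theorem ordinary_sub {S : Finset (ℤ × ℤ)} {h : ℤ} (H : Good S h) :
    ordinary (S.image emb) ⊆ join '' (bad S : Set ((ℤ × ℤ) × (ℤ × ℤ))) := by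
  rintro l ⟨⟨c, rfl⟩, hl⟩
  obtain ⟨u, v, huv, he⟩ := Set.ncard_eq_two.1 hl
  have hu : u ∈ tropLine c ∩ ((S.image emb : Finset (ℝ × ℝ)) : Set (ℝ × ℝ)) := by
    rw [he]; exact Set.mem_insert _ _
  have hv : v ∈ tropLine c ∩ ((S.image emb : Finset (ℝ × ℝ)) : Set (ℝ × ℝ)) := by
    rw [he]; exact Set.mem_insert_of_mem _ rfl
  obtain ⟨p, hp, rfl⟩ := Finset.mem_image.1 (Finset.mem_coe.1 hu.2)
  obtain ⟨q, hq, rfl⟩ := Finset.mem_image.1 (Finset.mem_coe.1 hv.2)
  have hpq : p ≠ q := fun e => huv (by rw [e])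
  -- general statement for an ordered pair
  have key : ∀ p q : ℤ × ℤ, p ∈ S → q ∈ S → p ≠ q → p.1 < q.1 → emb p ∈ tropLine c →
      emb q ∈ tropLine c →
      (∀ r ∈ S, emb r ∈ tropLine c → r = p ∨ r = q) → tropLine c ∈
      join '' (bad S : Set ((ℤ × ℤ) × (ℤ × ℤ))) := by
    intro p q hp hq hpq hlt h1 h2 h3
    have hx : (emb p).1 ≠ (emb q).1 := by
      intro e
      exact hpq (H.xi p hp q hq (by simpa [emb] using e))
    have hy : (emb p).2 ≠ (emb q).2 := by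
      intro e
      exact hpq (H.yi p hp q hq (by simpa [emb] using e))
    have hz : (emb p).2 - (emb p).1 ≠ (emb q).2 - (emb q).1 := by
      intro e
      refine hpq (H.zi p hp q hq ?_)
      simp only [emb] at e
      exact_mod_cast e
    refine ⟨(p, q), ?_, ?_⟩
    · rw [Finset.mem_coe, mem_bad]
      refine ⟨hp, hq, hlt, ?_⟩
      rintro ⟨r, hr, hrp, hrq, a, b, o1, o2, o3⟩
      have := center_unique hx hy hz h1 h2 (emb_mem o1) (emb_mem o2)
      have hrc : emb r ∈ tropLine c := by rw [this]; exact emb_mem o3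
      rcases h3 r hr hrc with e | e
      · exact hrp e
      · exact hrq e
    · have hex : ∃ d, emb (p, q).1 ∈ tropLine d ∧ emb (p, q).2 ∈ tropLine d := ⟨c, h1, h2⟩
      unfold join
      rw [dif_pos hex]
      rw [center_unique hx hy hz h1 h2 hex.choose_spec.1 hex.choose_spec.2]
  have all : ∀ r ∈ S, emb r ∈ tropLine c → r = p ∨ r = q := by
    intro r hr hrc
    have : emb r ∈ tropLine c ∩ ((S.image emb : Finset (ℝ × ℝ)) : Set (ℝ × ℝ)) :=
      ⟨hrc, Finset.mem_coe.2 (Finset.mem_image_of_mem _ hr)⟩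
    rw [he] at this
    rcases this with e | e
    · exact Or.inl (emb_inj e)
    · exact Or.inr (emb_inj e)
  rcases lt_trichotomy p.1 q.1 with hlt | heq | hgt
  · exact key p q hp hq hpq hlt hu.1 hv.1 all
  · exact absurd (H.xi p hp q hq heq) hpq
  · exact key q p hq hp hpq.symm hgt hv.1 hu.1 (fun r hr hrc => (all r hr hrc).symm)

theorem N_le {S : Finset (ℤ × ℤ)} {h : ℤ} (H : Good S h) :
    N (S.image emb) ≤ ((bad S).card : ℕ∞) := by
  unfold N
  calc (ordinary (S.image emb)).encard ≤ (join '' (bad S : Set ((ℤ × ℤ) × (ℤ × ℤ)))).encard :=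
        Set.encard_le_encard (ordinary_sub H)
    _ ≤ (bad S : Set ((ℤ × ℤ) × (ℤ × ℤ))).encard := Set.encard_image_le _ _
    _ = ((bad S).card : ℕ∞) := Set.encard_coe_eq_coe_finsetCard _

theorem m_le (k : ℕ) : m (3 ^ k) ≤ (((3 ^ k - 1) * (3 ^ k - 3) / 8 : ℕ) : ℕ∞) := by
  obtain ⟨S, h, H, e, hb⟩ := exists_good k
  have hc : (S.image emb).card = 3 ^ k := by
    rw [Finset.card_image_of_injective _ emb_inj]
    have := H.card
    rw [e] at this
    exact_mod_cast this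
  refine (iInf₂_le (S.image emb) hc).trans ((N_le H).trans ?_)
  rw [Nat.cast_le, Nat.le_div_iff_mul_le (by norm_num)]
  rcases Nat.eq_zero_or_pos k with rfl | hk
  · have h0 : h = 0 := by
      have : (3 : ℤ) ^ 0 = 1 := by norm_num
      omega
    subst h0
    have : (bad S).card = 0 := by
      have : ((bad S).card : ℤ) ≤ 0 := by linarith
      omega
    rw [this]; simp
  · have h3 : 3 ≤ 3 ^ k := by
      calc 3 = 3 ^ 1 := by norm_num
        _ ≤ 3 ^ k := Nat.pow_le_pow_right (by norm_num) hk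
    zify [show 1 ≤ 3 ^ k by omega, h3]
    rw [← e]
    nlinarith

theorem m_nine : m 9 ≤ 6 := by
  have := m_le 2
  norm_num at this
  exact this

theorem m_frequently (C : ℕ) : ∃ n, C ≤ n ∧ 8 * m n ≤ ((n ^ 2 : ℕ) : ℕ∞) := by
  refine ⟨3 ^ C, (Nat.lt_pow_self (by norm_num)).le, ?_⟩
  calc 8 * m (3 ^ C) ≤ 8 * (((3 ^ C - 1) * (3 ^ C - 3) / 8 : ℕ) : ℕ∞) := by
        gcongr
        exact m_le C
    _ = ((8 * ((3 ^ C - 1) * (3 ^ C - 3) / 8) : ℕ) : ℕ∞) := by push_cast; rfl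
    _ ≤ (((3 ^ C) ^ 2 : ℕ) : ℕ∞) := by
        rw [Nat.cast_le]
        calc 8 * ((3 ^ C - 1) * (3 ^ C - 3) / 8) ≤ (3 ^ C - 1) * (3 ^ C - 3) := Nat.mul_div_le _ _
          _ ≤ 3 ^ C * 3 ^ C := Nat.mul_le_mul (Nat.sub_le _ _) (Nat.sub_le _ _)
          _ = (3 ^ C) ^ 2 := by ring

end Pool.Agent.H211TR
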