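import Pool.Agent.H211TR.Core

set_option autoImplicit false

namespace Pool.Agent.H211TR

open Finset Classical

/-- `c.1` and `c.2` are on no common tropical line with a third point of `T`. -/
def Lone (T : Finset (ℤ × ℤ)) (p q : ℤ × ℤ) : Prop :=
  ¬ ∃ r ∈ T, r ≠ p ∧ r ≠ q ∧ ∃ a b : ℤ, On a b p ∧ On a b q ∧ On a b r

theorem mem_bad {S : Finset (ℤ × ℤ)} {c : (ℤ × ℤ) × (ℤ × ℤ)} :
    c ∈ bad S ↔ c.1 ∈ S ∧ c.2 ∈ S ∧ c.1.1 < c.2.1 ∧ Lone S c.1 c.2 := by
  unfold bad Lone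
  rw [Finset.mem_filter, Finset.mem_product]
  tauto

theorem On_tr {a b : ℤ} {p : ℤ × ℤ} (u v : ℤ) (huv : On a b p) (h : u = v ∨ True) :
    ∀ x y : ℤ, On (a + x) (b + y) (p.1 + x, p.2 + y) := by
  intro x y
  rcases huv with ⟨h1, h2⟩ | ⟨h1, h2⟩ | ⟨h1, h2⟩
  · exact Or.inl ⟨by dsimp only; omega, by dsimp only; omega⟩
  · exact Or.inr (Or.inl ⟨by dsimp only; omega, by dsimp only; omega⟩)
  · exact Or.inr (Or.inr ⟨by dsimp only; omega, by dsimp only; omega⟩)

/-- A lone pair inside a translate of `S` contained in `T` comes from a lone pair of `S`. -/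
theorem lone_tr {S T : Finset (ℤ × ℤ)} {x y : ℤ} (hST : ∀ r ∈ S, (r.1 + x, r.2 + y) ∈ T)
    {p q : ℤ × ℤ} (h : Lone T (p.1 + x, p.2 + y) (q.1 + x, q.2 + y)) : Lone S p q := by
  rintro ⟨r, hr, hp, hq, a, b, h1, h2, h3⟩
  refine h ⟨_, hST r hr, ?_, ?_, a + x, b + y, On_tr 0 0 h1 (Or.inl rfl) x y,
    On_tr 0 0 h2 (Or.inl rfl) x y, On_tr 0 0 h3 (Or.inl rfl) x y⟩
  · intro e
    rw [Prod.mk.injEq] at e
    exact hp (Prod.ext (by omega) (by omega))
  · intro e
    rw [Prod.mk.injEq] at e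
    exact hq (Prod.ext (by omega) (by omega))

theorem block_card {S T : Finset (ℤ × ℤ)} {x y : ℤ} (hST : ∀ r ∈ S, (r.1 + x, r.2 + y) ∈ T) :
    ((S ×ˢ S).filter fun c => c.1.1 < c.2.1 ∧
      Lone T (c.1.1 + x, c.1.2 + y) (c.2.1 + x, c.2.2 + y)).card ≤ (bad S).card := by
  refine Finset.card_le_card ?_
  intro c hc
  rw [Finset.mem_filter, Finset.mem_product] at hc
  exact mem_bad.2 ⟨hc.1.1, hc.1.2, hc.2.1, lone_tr hST hc.2.2⟩

variable {S : Finset (ℤ × ℤ)} {h : ℤ}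

theorem crossLD (H : Good S h) :
    (((S ×ˢ S).filter fun c => Lone (next S h) (c.1.1, c.1.2 + (2 * h + 1))
      (c.2.1 + (2 * h + 1), c.2.2)).card : ℤ) ≤ h * (h + 1) := by
  have h0 := H.h0
  refine count _ h h0 (fun c => c.1.2) (fun c => c.2.1) ?_ ?_ ?_ ?_
  · intro c hc
    rw [Finset.mem_filter, Finset.mem_product] at hc
    exact ⟨H.y0 _ hc.1.1, H.y1 _ hc.1.1⟩
  · intro c hc
    rw [Finset.mem_filter, Finset.mem_product] at hc
    exact ⟨H.x0 _ hc.1.2, H.x1 _ hc.1.2⟩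
  · intro c hc
    rw [Finset.mem_filter, Finset.mem_product] at hc
    obtain ⟨⟨hp, hq⟩, hl⟩ := hc
    by_contra hcon
    obtain ⟨s, hs, e⟩ := H.zs (c.1.2 - c.2.1) (by omega) (by omega)
    have := H.x0 _ hp; have := H.x1 _ hp; have := H.y0 _ hp; have := H.y1 _ hp
    have := H.x0 _ hq; have := H.x1 _ hq; have := H.y0 _ hq; have := H.y1 _ hq
    have := H.x0 _ hs; have := H.x1 _ hs; have := H.y0 _ hs; have := H.y1 _ hs
    refine hl ⟨_, mem_next.2 (Or.inr (Or.inr ⟨s, hs, rfl⟩)), ?_, ?_,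
      c.2.1 + (2 * h + 1), c.1.2 + (2 * h + 1), ?_, ?_, ?_⟩
    · intro e2; rw [Prod.mk.injEq] at e2; omega
    · intro e2; rw [Prod.mk.injEq] at e2; omega
    · exact Or.inl ⟨by dsimp only; omega, rfl⟩
    · exact Or.inr (Or.inl ⟨rfl, by dsimp only; omega⟩)
    · exact Or.inr (Or.inr ⟨by dsimp only; omega, by dsimp only; omega⟩)
  · intro c hc d hd e1 e2
    rw [Finset.mem_filter, Finset.mem_product] at hc hd
    exact Prod.ext (H.yi _ hc.1.1 _ hd.1.1 e1) (H.xi _ hc.1.2 _ hd.1.2 e2)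

theorem crossLU (H : Good S h) :
    (((S ×ˢ S).filter fun c => Lone (next S h) (c.1.1, c.1.2 + (2 * h + 1))
      (c.2.1 + 2 * (2 * h + 1), c.2.2 + 2 * (2 * h + 1))).card : ℤ) ≤ h * (h + 1) := by
  have h0 := H.h0
  refine count _ h h0 (fun c => c.1.2) (fun c => c.2.2 - c.2.1 + h) ?_ ?_ ?_ ?_
  · intro c hc
    rw [Finset.mem_filter, Finset.mem_product] at hc
    exact ⟨H.y0 _ hc.1.1, H.y1 _ hc.1.1⟩
  · intro c hc
    rw [Finset.mem_filter, Finset.mem_product] at hc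
    have := H.z0 _ hc.1.2; have := H.z1 _ hc.1.2
    try dsimp only
    omega
  · intro c hc
    rw [Finset.mem_filter, Finset.mem_product] at hc
    obtain ⟨⟨hp, hq⟩, hl⟩ := hc
    by_contra hcon
    try dsimp only at hcon
    obtain ⟨s, hs, e⟩ := H.xs (c.1.2 - (c.2.2 - c.2.1)) (by omega) (by omega)
    have := H.x0 _ hp; have := H.x1 _ hp; have := H.y0 _ hp; have := H.y1 _ hp
    have := H.x0 _ hq; have := H.x1 _ hq; have := H.y0 _ hq; have := H.y1 _ hq
    have := H.x0 _ hs; have := H.x1 _ hs; have := H.y0 _ hs; have := H.y1 _ hs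
    refine hl ⟨_, mem_next.2 (Or.inr (Or.inl ⟨s, hs, rfl⟩)), ?_, ?_,
      s.1 + (2 * h + 1), c.1.2 + (2 * h + 1), ?_, ?_, ?_⟩
    · intro e2; rw [Prod.mk.injEq] at e2; omega
    · intro e2; rw [Prod.mk.injEq] at e2; omega
    · exact Or.inl ⟨by dsimp only; omega, rfl⟩
    · exact Or.inr (Or.inr ⟨by dsimp only; omega, by dsimp only; omega⟩)
    · exact Or.inr (Or.inl ⟨rfl, by dsimp only; omega⟩)
  · intro c hc d hd e1 e2
    rw [Finset.mem_filter, Finset.mem_product] at hc hd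
    exact Prod.ext (H.yi _ hc.1.1 _ hd.1.1 e1) (H.zi _ hc.1.2 _ hd.1.2 (by omega))

theorem crossDU (H : Good S h) :
    (((S ×ˢ S).filter fun c => Lone (next S h) (c.1.1 + (2 * h + 1), c.1.2)
      (c.2.1 + 2 * (2 * h + 1), c.2.2 + 2 * (2 * h + 1))).card : ℤ) ≤ h * (h + 1) := by
  have h0 := H.h0
  refine count _ h h0 (fun c => c.1.1) (fun c => h - (c.2.2 - c.2.1)) ?_ ?_ ?_ ?_
  · intro c hc
    rw [Finset.mem_filter, Finset.mem_product] at hc
    exact ⟨H.x0 _ hc.1.1, H.x1 _ hc.1.1⟩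
  · intro c hc
    rw [Finset.mem_filter, Finset.mem_product] at hc
    have := H.z0 _ hc.1.2; have := H.z1 _ hc.1.2
    try dsimp only
    omega
  · intro c hc
    rw [Finset.mem_filter, Finset.mem_product] at hc
    obtain ⟨⟨hp, hq⟩, hl⟩ := hc
    by_contra hcon
    try dsimp only at hcon
    obtain ⟨s, hs, e⟩ := H.ys (c.1.1 + (c.2.2 - c.2.1)) (by omega) (by omega)
    have := H.x0 _ hp; have := H.x1 _ hp; have := H.y0 _ hp; have := H.y1 _ hp
    have := H.x0 _ hq; have := H.x1 _ hq; have := H.y0 _ hq; have := H.y1 _ hq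
    have := H.x0 _ hs; have := H.x1 _ hs; have := H.y0 _ hs; have := H.y1 _ hs
    refine hl ⟨_, mem_next.2 (Or.inl ⟨s, hs, rfl⟩), ?_, ?_,
      c.1.1 + (2 * h + 1), s.2 + (2 * h + 1), ?_, ?_, ?_⟩
    · intro e2; rw [Prod.mk.injEq] at e2; omega
    · intro e2; rw [Prod.mk.injEq] at e2; omega
    · exact Or.inr (Or.inl ⟨rfl, by dsimp only; omega⟩)
    · exact Or.inr (Or.inr ⟨by dsimp only; omega, by dsimp only; omega⟩)
    · exact Or.inl ⟨by dsimp only; omega, rfl⟩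
  · intro c hc d hd e1 e2
    rw [Finset.mem_filter, Finset.mem_product] at hc hd
    exact Prod.ext (H.xi _ hc.1.1 _ hd.1.1 e1) (H.zi _ hc.1.2 _ hd.1.2 (by omega))

theorem bad_next (H : Good S h) :
    ((bad (next S h)).card : ℤ) ≤ 3 * (bad S).card + 3 * (h * (h + 1)) := by
  have h0 := H.h0
  set m := 2 * h + 1 with hm
  set A1 := (S ×ˢ S).filter fun c => c.1.1 < c.2.1 ∧
      Lone (next S h) (c.1.1 + 0, c.1.2 + m) (c.2.1 + 0, c.2.2 + m) with hA1
  set A2 := (S ×ˢ S).filter fun c => c.1.1 < c.2.1 ∧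
      Lone (next S h) (c.1.1 + m, c.1.2 + 0) (c.2.1 + m, c.2.2 + 0) with hA2
  set A3 := (S ×ˢ S).filter fun c => c.1.1 < c.2.1 ∧
      Lone (next S h) (c.1.1 + 2 * m, c.1.2 + 2 * m) (c.2.1 + 2 * m, c.2.2 + 2 * m) with hA3
  set B1 := (S ×ˢ S).filter fun c => Lone (next S h) (c.1.1, c.1.2 + m) (c.2.1 + m, c.2.2) with hB1
  set B2 := (S ×ˢ S).filter fun c => Lone (next S h) (c.1.1, c.1.2 + m)
      (c.2.1 + 2 * m, c.2.2 + 2 * m) with hB2
  set B3 := (S ×ˢ S).filter fun c => Lone (next S h) (c.1.1 + m, c.1.2)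
      (c.2.1 + 2 * m, c.2.2 + 2 * m) with hB3
  have sub : bad (next S h) ⊆
      ((((A1.image fun c => (((c.1.1, c.1.2 + m), (c.2.1, c.2.2 + m)) : (ℤ × ℤ) × (ℤ × ℤ))) ∪
      (A2.image fun c => ((c.1.1 + m, c.1.2), (c.2.1 + m, c.2.2)))) ∪
      (A3.image fun c => ((c.1.1 + 2 * m, c.1.2 + 2 * m), (c.2.1 + 2 * m, c.2.2 + 2 * m)))) ∪
      (B1.image fun c => ((c.1.1, c.1.2 + m), (c.2.1 + m, c.2.2)))) ∪
      (B2.image fun c => ((c.1.1, c.1.2 + m), (c.2.1 + 2 * m, c.2.2 + 2 * m))) ∪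
      (B3.image fun c => ((c.1.1 + m, c.1.2), (c.2.1 + 2 * m, c.2.2 + 2 * m))) := by
    intro c hc
    obtain ⟨h1, h2, h3, h4⟩ := mem_bad.1 hc
    simp only [Finset.mem_union, Finset.mem_image]
    rcases mem_next.1 h1 with ⟨p, hp, e1⟩ | ⟨p, hp, e1⟩ | ⟨p, hp, e1⟩ <;>
    rcases mem_next.1 h2 with ⟨q, hq, e2⟩ | ⟨q, hq, e2⟩ | ⟨q, hq, e2⟩ <;>
    rw [e1, e2] at h3 h4 <;> dsimp only at h3 <;>
    have a1 := H.x0 _ hp <;> have a2 := H.x1 _ hp <;> have a3 := H.x0 _ hq <;>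
    have a4 := H.x1 _ hq
    · refine Or.inl (Or.inl (Or.inl (Or.inl (Or.inl ⟨(p, q), ?_, ?_⟩))))
      · rw [hA1, Finset.mem_filter, Finset.mem_product]
        exact ⟨⟨hp, hq⟩, h3, by simpa using h4⟩
      · exact Prod.ext e1.symm e2.symm
    · refine Or.inl (Or.inl (Or.inr ⟨(p, q), ?_, Prod.ext e1.symm e2.symm⟩))
      rw [hB1, Finset.mem_filter, Finset.mem_product]
      exact ⟨⟨hp, hq⟩, h4⟩
    · refine Or.inl (Or.inr ⟨(p, q), ?_, Prod.ext e1.symm e2.symm⟩)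
      rw [hB2, Finset.mem_filter, Finset.mem_product]
      exact ⟨⟨hp, hq⟩, h4⟩
    · exfalso; omega
    · refine Or.inl (Or.inl (Or.inl (Or.inl (Or.inr ⟨(p, q), ?_, Prod.ext e1.symm e2.symm⟩))))
      rw [hA2, Finset.mem_filter, Finset.mem_product]
      exact ⟨⟨hp, hq⟩, by dsimp only; omega, by simpa using h4⟩
    · refine Or.inr ⟨(p, q), ?_, Prod.ext e1.symm e2.symm⟩
      rw [hB3, Finset.mem_filter, Finset.mem_product]
      exact ⟨⟨hp, hq⟩, h4⟩
    · exfalso; omega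
    · exfalso; omega
    · refine Or.inl (Or.inl (Or.inl (Or.inr ⟨(p, q), ?_, Prod.ext e1.symm e2.symm⟩)))
      rw [hA3, Finset.mem_filter, Finset.mem_product]
      exact ⟨⟨hp, hq⟩, by dsimp only; omega, h4⟩
  have c1 : A1.card ≤ (bad S).card :=
    block_card (x := 0) (y := m) fun r hr => mem_next.2 (Or.inl ⟨r, hr, by simp [hm]⟩)
  have c2 : A2.card ≤ (bad S).card :=
    block_card (x := m) (y := 0) fun r hr => mem_next.2 (Or.inr (Or.inl ⟨r, hr, by simp [hm]⟩))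
  have c3 : A3.card ≤ (bad S).card :=
    block_card (x := 2 * m) (y := 2 * m) fun r hr => mem_next.2 (Or.inr (Or.inr ⟨r, hr, rfl⟩))
  have d1 : (B1.card : ℤ) ≤ h * (h + 1) := crossLD H
  have d2 : (B2.card : ℤ) ≤ h * (h + 1) := crossLU H
  have d3 : (B3.card : ℤ) ≤ h * (h + 1) := crossDU H
  have tot := (Finset.card_le_card sub).trans <|
    (Finset.card_union_le _ _).trans <| Nat.add_le_add
      ((Finset.card_union_le _ _).trans <| Nat.add_le_add
        ((Finset.card_union_le _ _).trans <| Nat.add_le_add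
          ((Finset.card_union_le _ _).trans <| Nat.add_le_add
            ((Finset.card_union_le _ _).trans <| Nat.add_le_add
              Finset.card_image_le Finset.card_image_le)
            Finset.card_image_le)
          Finset.card_image_le)
        Finset.card_image_le)
      Finset.card_image_le
  have tot' : ((bad (next S h)).card : ℤ) ≤
      (((((A1.card + A2.card) + A3.card) + B1.card) + B2.card) + B3.card : ℕ) := by
    exact_mod_cast tot
  push_cast at tot'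
  have c1' : (A1.card : ℤ) ≤ (bad S).card := by exact_mod_cast c1
  have c2' : (A2.card : ℤ) ≤ (bad S).card := by exact_mod_cast c2
  have c3' : (A3.card : ℤ) ≤ (bad S).card := by exact_mod_cast c3
  linarith

theorem exists_good : ∀ k : ℕ, ∃ (S : Finset (ℤ × ℤ)) (h : ℤ), Good S h ∧ 2 * h + 1 = 3 ^ k ∧
    2 * ((bad S).card : ℤ) ≤ h * (h - 1) := by
  intro k
  induction k with
  | zero =>
    refine ⟨{(0, 0)}, 0, ?_, by norm_num, ?_⟩
    · refine ⟨le_refl _, ?_, ?_, ?_, ?_, ?_, ?_, ?_, ?_, ?_, ?_, ?_, ?_⟩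
      iterate 6
        · intro p hp
          rw [Finset.mem_singleton] at hp
          subst hp
          norm_num
      iterate 3
        · intro p hp q hq _
          rw [Finset.mem_singleton] at hp hq
          rw [hp, hq]
      iterate 3
        · intro i h1 h2
          refine ⟨(0, 0), Finset.mem_singleton_self _, ?_⟩
          dsimp only
          omega
    · have : bad {((0 : ℤ), (0 : ℤ))} = ∅ := by
        rw [Finset.eq_empty_iff_forall_notMem]
        intro c hc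
        obtain ⟨h1, h2, h3, -⟩ := mem_bad.1 hc
        rw [Finset.mem_singleton] at h1 h2
        rw [h1, h2] at h3
        exact lt_irrefl _ h3
      rw [this]
      norm_num
  | succ k ih =>
    obtain ⟨S, h, H, e, hb⟩ := ih
    refine ⟨next S h, 3 * h + 1, H.next, ?_, ?_⟩
    · rw [pow_succ, ← e]; ring
    · have := bad_next H
      nlinarith

end Pool.Agent.H211TR
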